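import Mathlib
import Pool.Agent.Work.MP_a2680c_ag.HA.MainC

/-! # The discriminant and the moduli part for crepant covers of quotients and Galois forms of weighted hyperplane arrangements

Question Q1, in the klt and in the lc version, for all lc-trivial fibrations `(X, D) → Z` (any dimension, coefficients of `D` in
a DCC set `I` of real numbers) whose generic fibre is a finite crepant cover (of any degree, in the birational sense) of a pair
`(X₀, 𝔻₀)` which has a crepant Galois cover by a weighted hyperplane arrangement: `K`, `F`, `F₀` are the function fields of `Z`, `X`,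
`X₀`, `K ⊆ F₀ ⊆ F`; the b-divisor `𝔻₀` over `X₀` pulls back to the b-divisor `crp r x X D` of the multiplicities of `D` on
all models of `X`; `K'/K` and `F'/F₀` are finite Galois extensions of degree at most `δ`, `F' = K'(y_1, ..., y_n)`, and the
projective space `P` over `K'` with coordinates `y` and boundary `Σ d_i H_i`, `H_i` hyperplanes over `K'`, `d_i ∈ I`, is a
crepant cover of `(X₀, 𝔻₀)`: every prime divisor `ν'` of `P` lies over a divisor `ν` over `X₀`, with ramification index `ε`, and
`1 - ε (1 - 𝔻₀ ν)` is the sum of the `d_i` with `H_i = ν'`.  This class contains all pairs crepant birational to hyperplane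
arrangements over `K`, unions of hyperplanes conjugate over `K`, forms of the projective space, their quotients by finite groups
with the branch divisor in the boundary, and the finite covers of all these with the ramification subtracted, for instance
the double covers of `P^n` branched along `2 n + 2` hyperplanes, the Calabi-Yau covers of other arrangements, and the Jacobians
`Pic^n` of hyperelliptic curves of genus `n`, which are birational to the symmetric powers and crepant covers of `P^n` with
`2 n + 2` hyperplanes of weight `1/2`.
`J`, `Γ`, `m` depend only on `n`, `δ` and `I`, not on the degree of `F/F₀`.  `D_div` is the discriminant, and `- D_mod v` is the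
mean over the Galois group of `K'/K` of the least values `m_(v' ∘ g)(d)` of `Σ_b λ_b v'(g(det_b))` over all decompositions
`d = Σ_b λ_b 1_b` into bases of the arrangement, divided by the ramification index of `v'` over `v`.  (c) holds whenever the
trace of `D_mod` on `Z` is `ℝ`-Cartier, in particular for `ℚ`-factorial `Z`; without this assumption all `1 - D_div v` are
positive (nonnegative).

Proof.  On `P` the divisor `K_P + Σ d_i H_i` is a multiple of `Σ d_i div (l_i)`, `l_i` the linear forms; comparing canonical divisors
along `F'/F₀`, `F/F₀` and `K'/K` (Riemann-Hurwitz for logarithmic forms) the pull-back of `K_(X₀) + 𝔻₀` to `F'` is the pull-back of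
a divisor of `K'` plus `Σ d_i div (l_i)`, up to a principal divisor, and `K_X + D` is the pull-back of `K_(X₀) + 𝔻₀`.  Let `v` be a
divisor over `Z`, `v'` a divisor of `K'` over `v` with index `ε`.
(I) A divisor `W` over `X₀` above `v` and the given `v'` have a common extension `W'` to `F'` (conjugation in the Galois group of
`F'/F₀`; here the connectedness of the fibres is used), and the log discrepancies of `W` and `W'` are proportional.  For a basis `b`
of the arrangement the form `dlog` of the ratios of the `l_(b j)` is logarithmic along `W'`; averaging over an optimal decomposition of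
`d` the log discrepancy of `W'` is `m' (T_v' - m_v'(d))` plus `Σ_b λ_b κ_b`, `κ_b` natural numbers.  (II) Monomial valuations of
`F'` at optimal rational points of the dual linear program, restricted to `F₀`, attain the least value.  The divisors over `X`
lie over divisors over `X₀`, all of these are obtained, and the ratio of the log discrepancy to the index over `v` does not change,
so the discriminants of `X` and of `X₀` agree.  So `1 - D_div v` is `(T_v' - m_v'(d))/ε` for all `v'` over `v`; the mean over the
Galois group turns the part `T` into a divisor of `K` (norms), and `D_mod` into a combination, with coefficients in a finite set, of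
least values over finite sets of norms of general linear combinations of products of minors.  Such least values are base-point
free b-divisors (normalized blow-up).  The DCC of the coefficients holds since only finitely many `d` have sum `n + 1`, basic
decompositions are finite in number, and ramification indices in `F'/F₀` are at most `δ`. -/

set_option autoImplicit false

namespace Pool.Agent.Results.MP_a2680c_ag.CrepantCovers

open MP7b66e6 MP7b66e6.Q
open Pool.Agent.Work.MP_a2680c_ag.HA

universe u

theorem result (n δ : ℕ) (hn : 1 ≤ n) (hδ : 1 ≤ δ) (I : Set ℝ) (hI : I ⊆ Set.Ioc 0 1) (hD : DCC I) :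
    ∃ (J Γ : Set ℝ) (m : ℕ), J ⊆ Set.Ioc 0 1 ∧ DCC J ∧ Γ ⊆ Set.Ioc 0 1 ∧ Γ.Finite ∧ 1 ≤ m ∧
      ∀ (κ : Prop) (k K F₀ F K' F' : Type u) [Field k] [CharZero k] [Field K] [Field F₀] [Field F] [Field K'] [Field F']
        [Algebra k K] [Algebra k F₀] [Algebra k F] [Algebra k K'] [Algebra k F'] [Algebra K F₀] [Algebra K F] [Algebra K K']
        [Algebra K F'] [Algebra F₀ F] [Algebra F₀ F'] [Algebra K' F'] [IsScalarTower k K F₀] [IsScalarTower k K F]
        [IsScalarTower k F₀ F] [IsScalarTower K F₀ F] [IsScalarTower k K K'] [IsScalarTower k F₀ F'] [IsScalarTower k K' F']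
        [IsScalarTower K F₀ F'] [IsScalarTower K K' F'] [FiniteDimensional F₀ F] [Algebra.EssFiniteType k F₀]
        [FiniteDimensional K K'] [IsGalois K K'] [FiniteDimensional F₀ F'] [IsGalois F₀ F']
        (e N : ℕ) (r : Fin e → K) (x : Fin n → F) (y : Fin n → F') (Z : Set (Subalgebra k K)) (X : Set (Subalgebra k F))
        (D : AddValuation F (WithTop ℤ) → ℝ) (L : AddValuation K (WithTop ℤ) → ℝ) (𝔻₀ : AddValuation F₀ (WithTop ℤ) → ℝ)
        (a : Fin N → Fin (n + 1) → K') (d : Fin N → ℝ),
        Fib κ I r x Z X D L → IsTranscendenceBasis k (cor r x) →
        (∀ (ν : AddValuation F₀ (WithTop ℤ)) (ν' : AddValuation F (WithTop ℤ)) (ε : ℕ), Divisorial k ν →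
          (∃ π : F, ν' π = 1) → Lies ν ν' ε → 1 - crp r x X D ν' = ε * (1 - 𝔻₀ ν)) →
        Cvd (K := K) k δ I y 𝔻₀ a d →
        ∃ Dd Dm : AddValuation K (WithTop ℤ) → ℝ, AdjG κ J Γ m r x Z X D a d Dd Dm :=
  mainCG.{u} n δ hn hδ I hI hD

end Pool.Agent.Results.MP_a2680c_ag.CrepantCovers
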