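import Mathlib
import Pool.Agent.Work.MP_a2680c_ag.HA.MainT
import Pool.Agent.Work.MP_a2680c_ag.HA.DefsS

/-! # Question Q1, over every base, for relative dimension one, arrangement covers, and their towers, quotients and crepant covers

For lc-trivial fibrations `(X, D) → Z` over an algebraically closed field `k` of infinite transcendence degree over the rational
numbers (for instance the field of complex numbers), of any dimension, with coefficients of `D` in a DCC set `I` of real numbers,
which are of relative dimension one or in the class `Tws n δ I s`.  This class contains (with all boundary multiplicities along the
points of the generic fibre equal to `0` or in `I`) the fibrations of relative dimension one, and the fibrations whose generic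
fibre has a crepant Galois cover of degree at most `δ` by an `n`-dimensional weighted hyperplane arrangement (over a Galois
extension of the base of degree at most `δ`); and `X → Z` belongs to it if, in at most `s` steps, it is obtained by: towers
`X ⇢ Y → Z` with `Y → Z` of relative dimension one and `X ⇢ Y` in the class; `X` has a crepant Galois cover in the class, over a
Galois base change, both of degree at most `δ`; `X` is a finite crepant cover, of any degree, of a member of the class (for
instance the double covers of `P^n` along `2 n + 2` hyperplanes, or families of Jacobians `Pic^g` of hyperelliptic curves of genus
`g`, which are birational to the symmetric powers and crepant covers of `P^g` with `2 g + 2` hyperplanes of weight `1/2`).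
Then all of (a), (b), (c), (d) of Q1 hold, in the klt and in the lc version, for EVERY normal base `Z`, with a DCC set `J` which
depends only on `n`, `δ`, `s` and `I`, with `Γ = {1}`, `m = 1` and `D_mod = 0`: there is an effective divisor `D_Z` with
coefficients in `J` such that `(Z, D_Z)` is klt (lc) and `K_X + D ~ f^* (K_Z + D_Z)`, on all models.

Proof.  The statement is extended to b-divisors: `𝔻 ν` is the multiplicity of the boundary along any divisor `ν` over `Z` on any model
of `X`.  Then it is stable in towers: the general members of the free linear systems in which the moduli part of `X ⇢ Y` is
decomposed are added to the discriminant on `Y`, for ALL divisors over `Y` (without resolution of singularities: derivations of `K`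
over an endomorphism of `k`, determinants of logarithmic derivatives), and `(1 - 𝔻 ν) - m T_v` is a sum of elements of a finite
set, for all `ν` over `v`, which is transitive, keeps the coefficients in a DCC set, and descends along finite crepant covers of
any degree: canonical divisors of the cover and of the covered variety are compared by the Riemann-Hurwitz formula for logarithmic
forms, and the divisors over `Z` of both are dominated by the same `v`.  For a fibration of relative dimension one the
Riemann-Roch theorem for function fields (lattices over `K[f]`, the trace form, splitting of vector bundles on the projective line)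
shows that the generic fibre is a conic or a curve `C` of genus one with a vector field without zeros.  A conic with its boundary
is an arrangement of points over a Galois extension of bounded degree.  If `C` has genus one, the sum of the conjugates of a point of
`C` over an extension of `K` gives a map from `C` to its Jacobian (additivity of the logarithmic derivative, Weierstrass equation),
and all ramification indices of `C → Jac C → Jac C / ±1` over one point are equal, so that `C` is a crepant cover of a conic with
boundary multiplicities `1 - 1/μ`. -/

set_option autoImplicit false

namespace Pool.Agent.Results.MP_a2680c_ag.CrepantTowers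

open Pool.Agent.Work.MP_a2680c_ag.HA

universe u

theorem result (n δ s : ℕ) (hn : 1 ≤ n) (hδ : 1 ≤ δ) (I : Set ℝ) (hI : I ⊆ Set.Ioc 0 1) (hD : DCC I) :
    ∃ J : Set ℝ, J ⊆ Set.Ioc 0 1 ∧ DCC J ∧
      ∀ (κ : Prop) (k K F : Type u) [Field k] [CharZero k] [IsAlgClosed k] [Field K] [Field F] [Algebra k K] [Algebra k F]
        [Algebra K F] [IsScalarTower k K F] (e m : ℕ) (r : Fin e → K) (x : Fin m → F) (Z : Set (Subalgebra k K))
        (X : Set (Subalgebra k F)) (D : AddValuation F (WithTop ℤ) → ℝ) (L : AddValuation K (WithTop ℤ) → ℝ),
        Cardinal.aleph0 ≤ Algebra.trdeg ℚ k → Fib κ I r x Z X D L → IsTranscendenceBasis k (cor r x) →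
        ((∀ f : F, IsAlgebraic K f → ∃ c : K, algebraMap K F c = f) ∧ Algebra.trdeg K F = 1) ∨
          Tws n δ I s K F Z (crp r x X D) →
        ∃ Dd : AddValuation K (WithTop ℤ) → ℝ, Q1 κ J {1} 1 r x Z X D Dd (fun _ => 0) := by
  obtain ⟨J, h1, h2, h3⟩ := mainT.{u} n δ s hn hδ I hI hD
  refine ⟨J, h1, h2, ?_⟩
  intro κ k K F _ _ _ _ _ _ _ _ _ e m r x Z X D L htr hF hb hT
  rw [tws_eq] at hT
  exact h3 κ k K F e m r x Z X D L htr hF hb hT

end Pool.Agent.Results.MP_a2680c_ag.CrepantTowers
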