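import Mathlib
import Pool.Agent.Work.MP_a2680c_ag.HA.MainC

/-! # Explicit constants for crepant covers of quotients and Galois forms of rational hyperplane arrangements

Question Q1 with explicit constants, in the situation of `CrepantCovers` with all coefficients in `(1/M) ℤ ∩ (0, 1]`: `X` is a
finite crepant cover, of any degree, of a pair `(X₀, 𝔻₀)` which has a crepant cover (in the birational sense) by `P^n` over `K'`
with boundary `Σ d_i H_i`, `K'/K`, `F'/F₀` finite Galois of degree at most `δ`.  One may take
`J = {1 - (1 - j/(M η))/μ : 0 ≤ j ≤ M η, 1 ≤ η ≤ δ, μ ≥ 1}`, `Γ = {1}` and `m = M γ`, `γ = [K' : K]`: the divisor `M γ D_mod` is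
base-point free, and `- M γ ε D_mod v` is the sum over the Galois group of `K'/K` of the least values of `Σ_t v'(g(det_(B t)))` over
the `M`-tuples of bases `B 0, ..., B (M-1)` with `Σ_t 1_(B t) = M d`, for every divisorial `v'` over `v` of ramification index
`ε`.  For covers of pairs with hyperplanes over `K` (`K' = K`, `F' = F₀`, `δ = 1`): `J = {1 - (1 - j/M)/μ}`, `m = M`, for instance
`2 D_mod` is base-point free for families of double covers of `P^n` along `2 n + 2` hyperplanes.  Klt and lc
versions; `n` arbitrary, no dependence on `n` and on the degree of the crepant cover.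

Proof.  In the notation of `CrepantCovers`, let `(q, Y)` be an optimal rational dual solution for `v'`.  In an extension of
`(K', v')` of ramification index `q` the rows `a_i` are divided by `T^(Y_i)`, `T` of value `1`; then all maximal minors have value
`≥ 0`, and the tight bases are those whose minor does not vanish in the residue field.  The optimal decomposition of `M d` lives
on the bases of this residue arrangement, so by the matroid union theorem for linear matroids `M d` is the sum of
`M` bases of it, all of them tight.  Base-point freeness by norms of general combinations of the products of `M` minors. -/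

set_option autoImplicit false

namespace Pool.Agent.Results.MP_a2680c_ag.IntegralCovers

open MP7b66e6 MP7b66e6.Q
open Pool.Agent.Work.MP_a2680c_ag.HA

universe u

theorem result (n M δ : ℕ) (hn : 1 ≤ n) (hM : 1 ≤ M) (hδ : 1 ≤ δ) (κ : Prop) (k K F₀ F K' F' : Type u) [Field k] [CharZero k]
    [Field K] [Field F₀] [Field F] [Field K'] [Field F'] [Algebra k K] [Algebra k F₀] [Algebra k F] [Algebra k K'] [Algebra k F']
    [Algebra K F₀] [Algebra K F] [Algebra K K'] [Algebra K F'] [Algebra F₀ F] [Algebra F₀ F'] [Algebra K' F']
    [IsScalarTower k K F₀] [IsScalarTower k K F] [IsScalarTower k F₀ F] [IsScalarTower K F₀ F] [IsScalarTower k K K']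
    [IsScalarTower k F₀ F'] [IsScalarTower k K' F'] [IsScalarTower K F₀ F'] [IsScalarTower K K' F'] [FiniteDimensional F₀ F]
    [Algebra.EssFiniteType k F₀] [FiniteDimensional K K'] [IsGalois K K'] [FiniteDimensional F₀ F'] [IsGalois F₀ F'] (e N : ℕ)
    (r : Fin e → K) (x : Fin n → F) (y : Fin n → F') (Z : Set (Subalgebra k K)) (X : Set (Subalgebra k F))
    (D : AddValuation F (WithTop ℤ) → ℝ) (L : AddValuation K (WithTop ℤ) → ℝ) (𝔻₀ : AddValuation F₀ (WithTop ℤ) → ℝ)
    (a : Fin N → Fin (n + 1) → K') (d : Fin N → ℝ) (hF : Fib κ (IM M) r x Z X D L) (hb : IsTranscendenceBasis k (cor r x))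
    (h0 : ∀ (ν : AddValuation F₀ (WithTop ℤ)) (ν' : AddValuation F (WithTop ℤ)) (ε : ℕ), Divisorial k ν →
      (∃ π : F, ν' π = 1) → Lies ν ν' ε → 1 - crp r x X D ν' = ε * (1 - 𝔻₀ ν))
    (hC : Cvd (K := K) k δ (IM M) y 𝔻₀ a d) :
    ∃ Dd Dm : AddValuation K (WithTop ℤ) → ℝ, AdjH κ M δ r x Z X D a d Dd Dm :=
  mainCH.{u} n M δ hn hM hδ κ k K F₀ F K' F' e N r x y Z X D L 𝔻₀ a d hF hb h0 hC

end Pool.Agent.Results.MP_a2680c_ag.IntegralCovers
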